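import Pool.Agent.H5.Dem.Stmts
import Pool.Agent.H5.Dem.Chi0
import Pool.Agent.H5.Dem.Cup0
import Pool.Agent.H5.Dem.Eul
import Pool.Agent.H5.Dem.Fin
import Pool.Agent.H5.Dem.Idx
import Pool.Agent.H5.Dem.Inj
import Pool.Agent.H6.Dem.CUP
import Pool.Agent.H15.Dem.Shap
import Pool.Agent.H26.Dem.GRP
import Pool.Agent.H28.Dem.Comm
import Pool.Agent.H28.Dem.Ext
import Pool.Agent.H30.Dem.TREE
import Pool.Agent.H38.Dem.H1C
import Pool.Agent.H38.Dem.IND
import Pool.Agent.H44.Dem.KL
import Pool.Agent.H64.Dem.FROB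
import Pool.Agent.H67.Dem.CHI
import Pool.Agent.H67.Dem.DEMU
import Pool.Agent.H92.Dem.MAX
import Pool.Agent.H97.Dem.UPZ

/-!
# A Demushkin pro-2 group which is not self-similar (negative answer to Q1 of MP_33d618_al)
-/


namespace NSS

open Pool.Agent.H5.Dem

/-- There is a Demushkin pro-2 group `G` with `d(G) = 3` which is not self-similar of index 2. -/
theorem old : ∃ (G : Type) (_ : Group G) (_ : TopologicalSpace G),
    IsDemushkin 2 G ∧ Module.finrank (ZMod 2) (H1 2 G) = 3 ∧ ¬ IsSelfSimilar 2 G := by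
  have hEUL : EULStmt := eul kl upz ind shap frob
  have hH1C : H1CStmt := h1c hEUL chi0
  have hCUP : CUPStmt := cup_mod hEUL chi0 hH1C
  have hCUP0 : CUP0Stmt := cup0 hCUP ext max
  exact main grp demu tree (inj (comm hCUP0 max hH1C)) (idx hH1C hCUP hCUP0)
    (fin chi0 (chi hEUL) hH1C)

end NSS
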