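import Pool.Agent.H30.NSS.Defs
import Pool.Agent.H30.NSS.Old

/-!
The new definitions follow from those of `Pool.Agent.H5.Dem.Defs`.
-/

open Pool.Agent.H5.Dem

namespace NSS

section

variable {G : Type} [Group G] [TopologicalSpace G]

theorem dimOne {p : ℕ} [Fact p.Prime] {d : ℕ} (hd : 0 < d)
    (h : Module.finrank (ZMod p) (H1 p G) = d) : DimOne G p d := by
  have : Module.Finite (ZMod p) (H1 p G) := Module.finite_of_finrank_pos (by omega)
  let b := Module.finBasisOfFinrankEq (ZMod p) (H1 p G) h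
  refine ⟨fun i => (b i).1, fun i => (b i).2, fun f hf => ?_⟩
  let F : H1 p G := ⟨f, hf⟩
  have key : ∀ a : Fin d → ZMod p, (∀ g, f g = ∑ i, a i * (b i).1 g) ↔ F = ∑ i, a i • b i := by
    intro a
    constructor
    · intro h1
      apply Subtype.ext
      funext g
      rw [show (F : G → ZMod p) g = f g from rfl, h1 g]
      simp [Finset.sum_apply]
    · intro h1 g
      have h2 : (F : G → ZMod p) g = ((∑ i, a i • b i : H1 p G) : G → ZMod p) g := by rw [h1]
      rw [show f g = (F : G → ZMod p) g from rfl, h2]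
      simp [Finset.sum_apply]
  refine ⟨fun i => b.repr F i, (key _).mpr (b.sum_repr F).symm, fun a ha => ?_⟩
  have h1 := (key a).mp ha
  funext i
  rw [h1, b.repr_sum_self]

theorem dimTwo {p : ℕ} [Fact p.Prime] {d : ℕ} (hd : 0 < d)
    (h : Module.finrank (ZMod p) (H2 p G) = d) : DimTwo G p d := by
  have : Module.Finite (ZMod p) (H2 p G) := Module.finite_of_finrank_pos (by omega)
  let b := Module.finBasisOfFinrankEq (ZMod p) (H2 p G) h
  choose z hz using fun i => Submodule.Quotient.mk_surjective _ (b i)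
  refine ⟨fun i => (z i).1, fun i => (z i).2, fun c hc => ?_⟩
  let C : Z2 p G := ⟨c, hc⟩
  have key : ∀ a : Fin d → ZMod p, (IsCobound fun q => c q - ∑ i, a i * (z i).1 q) ↔
      (Submodule.Quotient.mk C : H2 p G) = ∑ i, a i • b i := by
    intro a
    have e1 : (∑ i, a i • b i : H2 p G) = Submodule.Quotient.mk (∑ i, a i • z i) := by
      rw [show (Submodule.Quotient.mk (∑ i, a i • z i) : H2 p G) =
        Submodule.mkQ _ (∑ i, a i • z i) from rfl, map_sum]
      refine Finset.sum_congr rfl fun i _ => ?_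
      rw [map_smul, Submodule.mkQ_apply, hz i]
    rw [e1, Submodule.Quotient.eq]
    have e2 : (fun q => c q - ∑ i, a i * (z i).1 q) =
        ((C - ∑ i, a i • z i : Z2 p G) : G × G → ZMod p) := by
      funext q
      simp [Finset.sum_apply, C]
    rw [e2]
    exact Iff.rfl
  refine ⟨fun i => b.repr (Submodule.Quotient.mk C) i, (key _).mpr (b.sum_repr _).symm,
    fun a ha => ?_⟩
  have h1 := (key a).mp ha
  funext i
  rw [h1, b.repr_sum_self]

theorem isDemushkin {p : ℕ} [Fact p.Prime] (h : Pool.Agent.H5.Dem.IsDemushkin p G) :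
    IsDemushkin G p := by
  refine ⟨⟨h.proP.topGroup, h.proP.compact, h.proP.hausdorff, h.proP.disconnected,
    h.proP.index⟩, h.fg, dimTwo one_pos h.dim_h2, ?_, ?_⟩
  · intro f hf hk
    have h1 := h.left ⟨f, hf⟩ fun k => (Submodule.Quotient.mk_eq_zero _).mpr (hk k.1 k.2)
    exact congrArg Subtype.val h1
  · intro k hk hf
    have h1 := h.right ⟨k, hk⟩ fun f => (Submodule.Quotient.mk_eq_zero _).mpr (hf f.1 f.2)
    exact congrArg Subtype.val h1

theorem isSelfSimilar {p : ℕ} (h : IsSelfSimilar G p) : Pool.Agent.H5.Dem.IsSelfSimilar p G := by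
  obtain ⟨ρ, h1, h2, h3, h4, h5, h6, h7, h8⟩ := h
  let σ : G →* Equiv.Perm (List (Fin p)) :=
    { toFun := fun g => ⟨ρ g, ρ g⁻¹, fun v => by rw [← h2, inv_mul_cancel, h1],
        fun v => by rw [← h2, mul_inv_cancel, h1]⟩
      map_one' := Equiv.ext h1
      map_mul' := fun g h => Equiv.ext (h2 g h) }
  refine ⟨σ, h3, h4, h5, ?_, h7, h8⟩
  rw [injective_iff_map_eq_one]
  intro g hg
  exact h6 g fun v => congrArg (fun e : Equiv.Perm (List (Fin p)) => e v) hg

end

/-- The main theorem. -/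
theorem main : ∃ (G : Type) (_ : Group G) (_ : TopologicalSpace G),
    IsDemushkin G 2 ∧ DimOne G 2 3 ∧ ¬ IsSelfSimilar G 2 := by
  obtain ⟨G, i1, i2, h1, h2, h3⟩ := old
  exact ⟨G, i1, i2, isDemushkin h1, dimOne (by norm_num) h2, fun h => h3 (isSelfSimilar h)⟩

end NSS
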