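import Mathlib

/-!
Definitions for the statement: Demushkin pro-`p` groups and self-similar actions on the `p`-ary tree.
-/

namespace NSS

section

variable {G : Type} [Group G] [TopologicalSpace G] {p : ℕ}

/-- `f` is an element of `H¹(G, F_p)`: a continuous homomorphism from `G` to `F_p`. -/
def IsHom (f : G → ZMod p) : Prop := IsLocallyConstant f ∧ ∀ g h, f (g * h) = f g + f h

/-- `c` is a continuous 2-cocycle of `G` with values in `F_p` (trivial action). -/
def IsCocycle (c : G × G → ZMod p) : Prop :=
  IsLocallyConstant c ∧ ∀ g h k, c (h, k) + c (g, h * k) = c (g * h, k) + c (g, h)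

/-- `c` is a continuous 2-coboundary. -/
def IsCobound (c : G × G → ZMod p) : Prop :=
  ∃ b : G → ZMod p, IsLocallyConstant b ∧ ∀ g h, c (g, h) = b g + b h - b (g * h)

variable (G p)

/-- `dim H¹(G, F_p) = d`: there is a basis `b 1, ..., b d`. -/
def DimOne (d : ℕ) : Prop :=
  ∃ b : Fin d → G → ZMod p, (∀ i, IsHom (b i)) ∧
    ∀ f : G → ZMod p, IsHom f → ∃! a : Fin d → ZMod p, ∀ g, f g = ∑ i, a i * b i g

/-- `dim H²(G, F_p) = d`, where `H²` is the space of cocycles modulo coboundaries: there are cocycles
`b 1, ..., b d` whose classes form a basis. -/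
def DimTwo (d : ℕ) : Prop :=
  ∃ b : Fin d → G × G → ZMod p, (∀ i, IsCocycle (b i)) ∧
    ∀ c : G × G → ZMod p, IsCocycle c →
      ∃! a : Fin d → ZMod p, IsCobound fun q => c q - ∑ i, a i * b i q

/-- `G` is a pro-`p` group: a compact, Hausdorff, totally disconnected topological group whose open
normal subgroups have index a power of `p`. -/
def IsProP : Prop :=
  IsTopologicalGroup G ∧ CompactSpace G ∧ T2Space G ∧ TotallyDisconnectedSpace G ∧
    ∀ U : Subgroup G, U.Normal → IsOpen (U : Set G) → ∃ k : ℕ, U.index = p ^ k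

/-- `G` is a Demushkin pro-`p` group: a topologically finitely generated pro-`p` group with
`dim H²(G, F_p) = 1` for which the cup product `H¹ × H¹ → H²` is non-degenerate (the cup product of `f`
and `k` is the class of the cocycle `(g, h) ↦ f g * k h`). -/
def IsDemushkin : Prop :=
  IsProP G p ∧ (∃ S : Finset G, closure (Subgroup.closure (S : Set G) : Set G) = Set.univ) ∧
    DimTwo G p 1 ∧
    (∀ f : G → ZMod p, IsHom f →
      (∀ k : G → ZMod p, IsHom k → IsCobound fun q => f q.1 * k q.2) → f = 0) ∧
    ∀ k : G → ZMod p, IsHom k →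
      (∀ f : G → ZMod p, IsHom f → IsCobound fun q => f q.1 * k q.2) → k = 0

/-- `G` is self-similar of index `p`: it has a faithful continuous self-similar action `ρ` on the
`p`-ary rooted tree (whose vertices are the finite words over `Fin p`) that is transitive on the
first level. -/
def IsSelfSimilar : Prop :=
  ∃ ρ : G → List (Fin p) → List (Fin p),
    -- an action by tree automorphisms
    (∀ v, ρ 1 v = v) ∧ (∀ g h v, ρ (g * h) v = ρ g (ρ h v)) ∧
    (∀ g v, (ρ g v).length = v.length) ∧ (∀ g v w, v <+: w → ρ g v <+: ρ g w) ∧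
    -- self-similar
    (∀ g x, ∃ y h, ∀ w, ρ g (x :: w) = y :: ρ h w) ∧
    -- faithful
    (∀ g, (∀ v, ρ g v = v) → g = 1) ∧
    -- continuous: all vertex stabilisers are open
    (∀ v, IsOpen {g | ρ g v = v}) ∧
    -- transitive on the first level
    ∀ x y : Fin p, ∃ g, ρ g [x] = [y]

end

end NSS
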